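import Mathlib
import Pool.Agent.H81.Func

/-!
The cyclic code with generator `M^(1) M^(1+2^(t-1)) M^(1+2^t)` and the triple-error-correcting
primitive BCH code are inequivalent for every `t ≥ 3`.
-/

set_option autoImplicit false
set_option linter.unusedSectionVars false

namespace Pool.Agent.Results.MP_68eb4a_lc.Inequivalence

open Polynomial Pool.Agent.H81

/-- The polynomial `c_0 + c_1 x + ... + c_(n-1) x^(n-1)` of a word of length `n`. -/
noncomputable def wordPoly {n : ℕ} (c : Fin n → ZMod 2) : (ZMod 2)[X] :=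
  ∑ i : Fin n, C (c i) * X ^ (i : ℕ)

/-- The binary cyclic code of length `n` with generator polynomial `g`: the words whose class in
`GF(2)[x]/(x^n - 1)` is a multiple of the class of `g`. -/
def cyclicCode (n : ℕ) (g : (ZMod 2)[X]) : Set (Fin n → ZMod 2) :=
  {c | Ideal.Quotient.mk (Ideal.span {(X : (ZMod 2)[X]) ^ n - 1}) (wordPoly c) ∈
    Ideal.span {Ideal.Quotient.mk (Ideal.span {(X : (ZMod 2)[X]) ^ n - 1}) g}}

/-- The code `C_t`, with generator polynomial `M^(1) M^(r) M^(s)`, `r = 1 + 2^(t-1)`,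
`s = 1 + 2^t`. -/
noncomputable def codeC (t : ℕ) {F : Type*} [Field F] [Algebra (ZMod 2) F] (α : F) :
    Set (Fin (2 ^ (2 * t + 1) - 1) → ZMod 2) :=
  cyclicCode (2 ^ (2 * t + 1) - 1)
    (minpoly (ZMod 2) α * minpoly (ZMod 2) (α ^ (1 + 2 ^ (t - 1))) *
      minpoly (ZMod 2) (α ^ (1 + 2 ^ t)))

/-- The triple-error-correcting primitive BCH code `B_t`, with generator polynomial
`M^(1) M^(3) M^(5)`. -/
noncomputable def codeB (t : ℕ) {F : Type*} [Field F] [Algebra (ZMod 2) F] (α : F) :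
    Set (Fin (2 ^ (2 * t + 1) - 1) → ZMod 2) :=
  cyclicCode (2 ^ (2 * t + 1) - 1)
    (minpoly (ZMod 2) α * minpoly (ZMod 2) (α ^ 3) * minpoly (ZMod 2) (α ^ 5))

/-- Two codes of length `n` are equivalent if one is obtained from the other by a fixed
permutation of the `n` coordinates. -/
def Equivalent {n : ℕ} (A B : Set (Fin n → ZMod 2)) : Prop :=
  ∃ σ : Equiv.Perm (Fin n), B = (fun c => c ∘ σ) '' A

section aux

variable {F : Type*} [Field F] [Fintype F] [DecidableEq F] [Algebra (ZMod 2) F]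

lemma aeval_wordPoly {n : ℕ} (c : Fin n → ZMod 2) (β : F) :
    aeval β (wordPoly c) = ∑ i, algebraMap (ZMod 2) F (c i) * β ^ (i : ℕ) := by
  simp [wordPoly]

lemma minpoly_dvd_of_aeval {p : (ZMod 2)[X]} {β : F} (h : aeval β p = 0) :
    minpoly (ZMod 2) β ∣ p := minpoly.dvd _ _ h

/-- membership in a cyclic code given by three minimal polynomials, in terms of roots. -/
lemma mem_cyclicCode_iff {n : ℕ} (hn : ((n : ℕ) : ZMod 2) ≠ 0) {β₁ β₂ β₃ : F} (h₁ : β₁ ^ n = 1)
    (h₂ : β₂ ^ n = 1) (h₃ : β₃ ^ n = 1) (c : Fin n → ZMod 2) :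
    c ∈ cyclicCode n (minpoly (ZMod 2) β₁ * minpoly (ZMod 2) β₂ * minpoly (ZMod 2) β₃) ↔
      aeval β₁ (wordPoly c) = 0 ∧ aeval β₂ (wordPoly c) = 0 ∧ aeval β₃ (wordPoly c) = 0 := by
  set g := minpoly (ZMod 2) β₁ * minpoly (ZMod 2) β₂ * minpoly (ZMod 2) β₃ with hg
  constructor
  · intro hc
    unfold cyclicCode at hc
    rw [Set.mem_ofPred_eq, Ideal.mem_span_singleton'] at hc
    obtain ⟨a, ha⟩ := hc
    obtain ⟨h, rfl⟩ := Ideal.Quotient.mk_surjective a
    rw [← map_mul, Ideal.Quotient.eq, Ideal.mem_span_singleton] at ha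
    obtain ⟨e, he⟩ := ha
    have hw : wordPoly c = h * g - (X ^ n - 1) * e := by rw [← he]; ring
    have key : ∀ β : F, β ^ n = 1 → aeval β g = 0 → aeval β (wordPoly c) = 0 := by
      intro β hβ hgβ
      rw [hw]
      simp [hβ, hgβ]
    refine ⟨key β₁ h₁ ?_, key β₂ h₂ ?_, key β₃ h₃ ?_⟩ <;> rw [hg] <;> simp
  · rintro ⟨hc1, hc2, hc3⟩
    unfold cyclicCode
    rw [Set.mem_ofPred_eq, Ideal.mem_span_singleton']
    set d := EuclideanDomain.gcd g (X ^ n - 1) with hd
    have hsq : Squarefree d :=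
      Squarefree.squarefree_of_dvd (EuclideanDomain.gcd_dvd_right g (X ^ n - 1))
        (Polynomial.X_pow_sub_one_separable_iff.2 hn).squarefree
    have hdg : d ∣ wordPoly c ^ 3 := by
      refine (EuclideanDomain.gcd_dvd_left g (X ^ n - 1)).trans ?_
      have : wordPoly c ^ 3 = wordPoly c * wordPoly c * wordPoly c := by ring
      rw [this, hg]
      exact mul_dvd_mul (mul_dvd_mul (minpoly_dvd_of_aeval hc1) (minpoly_dvd_of_aeval hc2))
        (minpoly_dvd_of_aeval hc3)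
    have hdw : d ∣ wordPoly c := (hsq.dvd_pow_iff_dvd (by norm_num)).1 hdg
    obtain ⟨e, he⟩ := hdw
    have hab := EuclideanDomain.gcd_eq_gcd_ab g (X ^ n - 1 : (ZMod 2)[X])
    rw [← hd] at hab
    refine ⟨Ideal.Quotient.mk _ (EuclideanDomain.gcdA g (X ^ n - 1) * e), ?_⟩
    rw [← map_mul, Ideal.Quotient.eq, Ideal.mem_span_singleton]
    refine ⟨- (EuclideanDomain.gcdB g (X ^ n - 1) * e), ?_⟩
    rw [he, hab]; ring

/-- the word attached to `(a,b,c)`. -/
noncomputable def Tword (n : ℕ) (β₁ β₂ β₃ : F) (p : F × F × F) : Fin n → ZMod 2 :=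
  fun i => tr (p.1 * β₁ ^ (i : ℕ) + p.2.1 * β₂ ^ (i : ℕ) + p.2.2 * β₃ ^ (i : ℕ))

lemma Tword_add (n : ℕ) (β₁ β₂ β₃ : F) (p p' : F × F × F) :
    Tword n β₁ β₂ β₃ (p + p') = Tword n β₁ β₂ β₃ p + Tword n β₁ β₂ β₃ p' := by
  funext i
  simp only [Tword, Pi.add_apply]
  rw [← tr_add]; congr 1; simp only [Prod.fst_add, Prod.snd_add]; ring

lemma tr_smul (a : ZMod 2) (x : F) : a * tr x = tr (algebraMap (ZMod 2) F a * x) := by
  rcases zmod2_cases a with rfl | rfl <;> simp [tr_zero]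

lemma tr_sum {ι : Type*} (s : Finset ι) (f : ι → F) : tr (∑ i ∈ s, f i) = ∑ i ∈ s, tr (f i) := by
  simp [tr]

lemma pairing {n : ℕ} (β₁ β₂ β₃ : F) (p : F × F × F) (c : Fin n → ZMod 2) :
    ∑ i, c i * Tword n β₁ β₂ β₃ p i = tr (aeval β₁ (wordPoly c) * p.1 +
      aeval β₂ (wordPoly c) * p.2.1 + aeval β₃ (wordPoly c) * p.2.2) := by
  rw [aeval_wordPoly, aeval_wordPoly, aeval_wordPoly, Finset.sum_mul, Finset.sum_mul,
    Finset.sum_mul, ← Finset.sum_add_distrib, ← Finset.sum_add_distrib, tr_sum]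
  refine Finset.sum_congr rfl fun i _ => ?_
  rw [Tword, tr_smul]; congr 1; ring

lemma all_pairings_iff {n : ℕ} (β₁ β₂ β₃ : F) (c : Fin n → ZMod 2) :
    (∀ p, ∑ i, c i * Tword n β₁ β₂ β₃ p i = 0) ↔
      aeval β₁ (wordPoly c) = 0 ∧ aeval β₂ (wordPoly c) = 0 ∧ aeval β₃ (wordPoly c) = 0 := by
  constructor
  · intro h
    refine ⟨?_, ?_, ?_⟩
    · apply tr_nondeg; intro b
      have := h (b, 0, 0); rw [pairing] at this; simpa using this
    · apply tr_nondeg; intro b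
      have := h (0, b, 0); rw [pairing] at this; simpa using this
    · apply tr_nondeg; intro b
      have := h (0, 0, b); rw [pairing] at this; simpa using this
  · rintro ⟨h1, h2, h3⟩ p
    rw [pairing, h1, h2, h3]; simp [tr_zero]

/-- enumeration of the field by `0` and the powers of `α`. -/
lemma exists_enum {n : ℕ} {α : F} (hcard : Fintype.card F = n + 1) (hα : orderOf α = n)
    (hn : 0 < n) : ∃ e : Option (Fin n) ≃ F, e none = 0 ∧ ∀ i : Fin n, e (some i) = α ^ (i : ℕ) := by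
  have hα0 : α ≠ 0 := by
    rintro rfl
    have h1 : (0 : F) ^ n = 1 := by rw [← hα]; exact pow_orderOf_eq_one _
    rw [zero_pow hn.ne'] at h1
    exact zero_ne_one h1
  let f : Option (Fin n) → F := fun o => o.elim 0 (fun i => α ^ (i : ℕ))
  have hinj : Function.Injective f := by
    intro a b hab
    rcases a with _ | a <;> rcases b with _ | b
    · rfl
    · exact absurd hab.symm (pow_ne_zero _ hα0)
    · exact absurd hab (pow_ne_zero _ hα0)
    · have h1 : α ^ (a : ℕ) = α ^ (b : ℕ) := hab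
      have h2 : (a : ℕ) = (b : ℕ) := by
        apply pow_injOn_Iio_orderOf _ _ h1
        · rw [hα]; exact a.2
        · rw [hα]; exact b.2
      rw [Fin.ext h2]
  have hbij : Function.Bijective f := by
    rw [Fintype.bijective_iff_injective_and_card]
    refine ⟨hinj, ?_⟩
    rw [hcard]; simp
  exact ⟨Equiv.ofBijective f hbij, rfl, fun i => rfl⟩


theorem main_aux (t : ℕ) (ht : 3 ≤ t) (hF : Fintype.card F = 2 ^ (2 * t + 1)) (α : F) (n : ℕ)
    (hn : n = 2 ^ (2 * t + 1) - 1) (hα : orderOf α = n) (σ : Equiv.Perm (Fin n))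
    (hσ : cyclicCode n (minpoly (ZMod 2) α * minpoly (ZMod 2) (α ^ 3) * minpoly (ZMod 2) (α ^ 5)) =
      (fun c => c ∘ σ) '' cyclicCode n (minpoly (ZMod 2) α *
        minpoly (ZMod 2) (α ^ (1 + 2 ^ (t - 1))) * minpoly (ZMod 2) (α ^ (1 + 2 ^ t)))) : False := by
  have hpow : 2 ^ 7 ≤ 2 ^ (2 * t + 1) := Nat.pow_le_pow_right (by norm_num) (by omega)
  have hn0 : 0 < n := by omega
  have hnF : Fintype.card F = n + 1 := by omega
  have hnz : ((n : ℕ) : ZMod 2) ≠ 0 := by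
    intro h
    have h1 := (ZMod.natCast_eq_zero_iff n 2).1 h
    have h2 : 2 ∣ 2 ^ (2 * t + 1) := dvd_pow_self 2 (by omega)
    omega
  have hαn : α ^ n = 1 := by rw [← hα]; exact pow_orderOf_eq_one _
  have hpw : ∀ e : ℕ, (α ^ e) ^ n = 1 := fun e => by rw [← pow_mul, mul_comm, pow_mul, hαn, one_pow]
  set CC := cyclicCode n (minpoly (ZMod 2) α *
        minpoly (ZMod 2) (α ^ (1 + 2 ^ (t - 1))) * minpoly (ZMod 2) (α ^ (1 + 2 ^ t))) with hCC
  set BB := cyclicCode n (minpoly (ZMod 2) α * minpoly (ZMod 2) (α ^ 3) *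
    minpoly (ZMod 2) (α ^ 5)) with hBB
  -- membership in the codes
  have memC : ∀ c : Fin n → ZMod 2, c ∈ CC ↔
      ∀ p, ∑ i, c i * Tword n α (α ^ (1 + 2 ^ (t - 1))) (α ^ (1 + 2 ^ t)) p i = 0 := by
    intro c
    rw [all_pairings_iff]
    exact mem_cyclicCode_iff hnz hαn (hpw _) (hpw _) c
  have memB : ∀ c : Fin n → ZMod 2, c ∈ BB ↔
      ∀ p, ∑ i, c i * Tword n α (α ^ 3) (α ^ 5) p i = 0 := by
    intro c
    rw [all_pairings_iff]
    exact mem_cyclicCode_iff hnz hαn (hpw _) (hpw _) c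
  have hCB : ∀ c : Fin n → ZMod 2, c ∈ CC → c ∘ σ ∈ BB := by
    intro c hc; rw [hσ]; exact ⟨c, hc, rfl⟩
  have hBC : ∀ c : Fin n → ZMod 2, c ∈ BB → c ∘ σ.symm ∈ CC := by
    intro c hc; rw [hσ] at hc
    obtain ⟨c', hc', rfl⟩ := hc
    have : (fun c => c ∘ ⇑σ) c' ∘ ⇑σ.symm = c' := by
      funext i; simp
    rw [this]; exact hc'
  -- duals
  have dualC : ∀ p, ∃ p', Tword n α (α ^ (1 + 2 ^ (t - 1))) (α ^ (1 + 2 ^ t)) p ∘ σ =
      Tword n α (α ^ 3) (α ^ 5) p' := by
    intro p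
    apply mem_range_of_annihilates _ (Tword_add n α (α ^ 3) (α ^ 5))
    intro c hc
    have h1 := (memC _).1 (hBC c ((memB c).2 hc)) p
    rw [← Equiv.sum_comp σ] at h1
    rw [← h1]
    refine Finset.sum_congr rfl fun i _ => ?_
    simp
  have dualB : ∀ p, ∃ p', Tword n α (α ^ 3) (α ^ 5) p ∘ σ.symm =
      Tword n α (α ^ (1 + 2 ^ (t - 1))) (α ^ (1 + 2 ^ t)) p' := by
    intro p
    apply mem_range_of_annihilates _ (Tword_add n α (α ^ (1 + 2 ^ (t - 1))) (α ^ (1 + 2 ^ t)))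
    intro c hc
    have h1 := (memB _).1 (hCB c ((memC c).2 hc)) p
    rw [← Equiv.sum_comp σ.symm] at h1
    rw [← h1]
    refine Finset.sum_congr rfl fun i _ => ?_
    simp
  -- the permutation of the field
  obtain ⟨e, he0, he⟩ := exists_enum hnF hα hn0
  let τ : Equiv.Perm F := e.symm.trans ((Equiv.optionCongr σ.symm).trans e)
  have hτ0 : τ 0 = 0 := by
    have : e.symm 0 = none := by rw [← he0]; simp
    change e ((Equiv.optionCongr σ.symm) (e.symm 0)) = 0
    rw [this, Equiv.optionCongr_apply]; simpa using he0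
  have hτ : ∀ i : Fin n, τ (α ^ (i : ℕ)) = α ^ ((σ.symm i : Fin n) : ℕ) := by
    intro i
    have : e.symm (α ^ (i : ℕ)) = some i := by rw [← he i]; simp
    change e ((Equiv.optionCongr σ.symm) (e.symm (α ^ (i : ℕ)))) = _
    rw [this, Equiv.optionCongr_apply, Option.map_some]
    exact he _
  have hcover : ∀ x : F, x = 0 ∨ ∃ i : Fin n, x = α ^ (i : ℕ) := by
    intro x
    rcases hx : e.symm x with _ | i
    · left; rw [← he0, ← hx]; simp
    · right; refine ⟨i, ?_⟩; rw [← he i, ← hx]; simp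
  have hTB : ∀ (p : F × F × F) (i : Fin n), Tword n α (α ^ 3) (α ^ 5) p i =
      fB p.1 (p.2.1, p.2.2) (α ^ (i : ℕ)) := by
    intro p i
    unfold Tword fB
    congr 1
    rw [← pow_mul, ← pow_mul, ← pow_mul, ← pow_mul, mul_comm 3, mul_comm 5]
  have hTC : ∀ (p : F × F × F) (i : Fin n),
      Tword n α (α ^ (1 + 2 ^ (t - 1))) (α ^ (1 + 2 ^ t)) p i =
      fC t p.1 p.2.1 p.2.2 (α ^ (i : ℕ)) := by
    intro p i
    unfold Tword fC
    congr 1
    rw [← pow_mul, ← pow_mul, ← pow_mul, ← pow_mul, mul_comm (1 + 2 ^ (t - 1)), mul_comm (1 + 2 ^ t)]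
  refine func_inequiv ht hF τ ?_ ?_
  · intro a z
    obtain ⟨p', hp'⟩ := dualB (a, z.1, z.2)
    refine ⟨p'.1, p'.2.1, p'.2.2, fun x => ?_⟩
    rcases hcover x with rfl | ⟨i, rfl⟩
    · rw [hτ0, fB_zero, fC_zero]
    · rw [hτ, ← hTC p' i, ← hp']
      simp only [Function.comp_apply]
      rw [hTB]
  · intro a' b' c'
    obtain ⟨p', hp'⟩ := dualC (a', b', c')
    refine ⟨p'.1, (p'.2.1, p'.2.2), fun x => ?_⟩
    rcases hcover x with rfl | ⟨i, rfl⟩
    · rw [hτ0, fB_zero, fC_zero]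
    · rw [hτ]
      have h1 := congrFun hp' (σ.symm i)
      simp only [Function.comp_apply, Equiv.apply_symm_apply] at h1
      rw [hTB, hTC] at h1
      exact h1

end aux

/-- For every `t ≥ 3`, every field `F` with `2^(2t+1)` elements and every primitive element `α` of
`F`, the codes `C_t` and `B_t` are not equivalent. -/
theorem result (t : ℕ) (ht : 3 ≤ t) (F : Type*) [Field F] [Fintype F] [Algebra (ZMod 2) F]
    (hF : Fintype.card F = 2 ^ (2 * t + 1)) (α : F) (hα : orderOf α = 2 ^ (2 * t + 1) - 1) :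
    ¬ Equivalent (codeC t α) (codeB t α) := by
  classical
  rintro ⟨σ, hσ⟩
  exact main_aux t ht hF α (2 ^ (2 * t + 1) - 1) rfl hα σ hσ

end Pool.Agent.Results.MP_68eb4a_lc.Inequivalence
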